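import Mathlib
import Pool.Agent.Q24.MS.Core

/-!
# Weak form of Malle's conjecture: one field of a suitable group suffices

For every finite group `Y` there is a finite group `Γ` with the following property. Let `K` be a
number field and `G ≤ S_d` a group such that some quotient of `G` has a normal subgroup isomorphic to
`Γ`. If there is one field of degree `d` over `K` with Galois group `G`, then Malle's conjecture
(weak form and asymptotic formula) holds over `K` for `C₂ ≀ (X × S_n)`, `n` large, and for `C₂ ≀ X`,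
if `X` has a subgroup `U` of index `u` with trivial normal core and `8 u (u + 1) ≤ |X|`. Here `X = Y`
or, more generally, `X` has a normal subgroup `S`, solvable of a certain type, whose nilpotent
residual `S_1` satisfies `X / S_1 ≅ Y`.

Therefore, over a given number field, Malle's conjecture for all groups `C₂ ≀ (X × S_n)`, with the
asymptotic formula, follows from its weakest qualitative form: every finite group is isomorphic to a
normal subgroup of a quotient of a permutation group which occurs at least once.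
-/

set_option autoImplicit false

open Filter

namespace Pool.Agent.Results.MP_af4c59_nt.OneFieldSuffices

/-- `G ≤ S_d` is, up to a bijection `f` of `{1, ..., d}` with `H × {0, 1}`, the wreath product
`C₂ ≀ H`: it consists of all permutations `π` for which there is `h ∈ H` such that `π` maps the block
`{x} × {0, 1}` to the block `{h x} × {0, 1}`, for all `x ∈ H`. -/
def IsC2Wreath (H : Type) [Group H] {d : ℕ} (G : Subgroup (Equiv.Perm (Fin d))) : Prop :=
  ∃ f : Fin d ≃ H × Bool, ∀ π : Equiv.Perm (Fin d), π ∈ G ↔ ∃ h : H, ∀ i, (f (π i)).1 = h * (f i).1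

/-- The index of a permutation: `d` minus the number of its cycles, fixed points included. -/
def ind {d : ℕ} (g : Equiv.Perm (Fin d)) : ℕ := g.cycleType.sum - Multiset.card g.cycleType

/-- `a(G) = 1 / min ind(g)`, the minimum over the `g ≠ 1` in `G`. -/
noncomputable def a {d : ℕ} (G : Subgroup (Equiv.Perm (Fin d))) : ℝ :=
  1 / (sInf {j : ℕ | ∃ g ∈ G, g ≠ 1 ∧ j = ind g} : ℕ)

/-- The field `L`, between `K` and its algebraic closure, has degree `d` over `K`, and its Galois
group, acting on the embeddings, is `G` (up to numbering). -/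
def HasGroup (K : Type) [Field K] [NumberField K] (d : ℕ) (G : Subgroup (Equiv.Perm (Fin d)))
    (L : IntermediateField K (AlgebraicClosure K)) : Prop :=
  Module.finrank K L = d ∧
    ∃ e : (L →ₐ[K] AlgebraicClosure K) ≃ Fin d, ∀ π : Equiv.Perm (Fin d),
      π ∈ G ↔ ∃ σ : AlgebraicClosure K ≃ₐ[K] AlgebraicClosure K,
        ∀ φ : L →ₐ[K] AlgebraicClosure K, e (σ.toAlgHom.comp φ) = π (e φ)

/-- `N_{d,K}(X; G)`: the number of fields `L` of degree `d` over `K` with Galois group `G`, whose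
relative discriminant has norm at most `X` (that is, `|d_L| ≤ X |d_K| ^ d`). -/
noncomputable def N (K : Type) [Field K] [NumberField K] (d : ℕ)
    (G : Subgroup (Equiv.Perm (Fin d))) (X : ℝ) : ℕ :=
  Set.ncard {L : IntermediateField K (AlgebraicClosure K) | HasGroup K d G L ∧
    ∃ h : NumberField L,
      ((|@NumberField.discr L _ h| : ℤ) : ℝ) ≤ X * ((|NumberField.discr K| : ℤ) : ℝ) ^ d}

/-- Malle's conjecture for `(K, G)`: the asymptotic formula `N_{d,K}(X; G) ~ c X ^ a(G)` (so
`b(K, G) = 1`), and the inequalities of the weak form. -/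
def Malle (K : Type) [Field K] [NumberField K] (d : ℕ) (G : Subgroup (Equiv.Perm (Fin d))) :
    Prop :=
  (∃ c : ℝ, 0 < c ∧ Tendsto (fun X : ℝ => (N K d G X : ℝ) / X ^ a G) atTop (nhds c)) ∧
  (∃ c₁ : ℝ, 0 < c₁ ∧ ∃ X₀ : ℝ, ∀ X : ℝ, X₀ ≤ X → c₁ * X ^ a G ≤ N K d G X) ∧
  (∀ ε : ℝ, 0 < ε → ∃ c₂ : ℝ, 0 < c₂ ∧ ∃ X₀ : ℝ, ∀ X : ℝ, X₀ ≤ X →
    (N K d G X : ℝ) < c₂ * X ^ (a G + ε))

/-- The lower bound of the weak form of Malle's conjecture for `(K, G)`. -/
def LowerBound (K : Type) [Field K] [NumberField K] (d : ℕ) (G : Subgroup (Equiv.Perm (Fin d))) :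
    Prop :=
  ∃ c₁ : ℝ, 0 < c₁ ∧ ∃ X₀ : ℝ, ∀ X : ℝ, X₀ ≤ X → c₁ * X ^ a G ≤ N K d G X

/-- The wreath product `C₂ ≀ H`, `H` in its regular action, satisfies `P` (as a subgroup `G` of
`S_d`, `d = 2 |H|`, for every numbering of `H × {0, 1}`). -/
def OrderTwo (H : Type) [Group H]
    (P : ∀ d : ℕ, Subgroup (Equiv.Perm (Fin d)) → Prop) : Prop :=
  ∀ (d : ℕ) (G : Subgroup (Equiv.Perm (Fin d))), IsC2Wreath H G → P d G

/-- `P` holds for all groups `C₂ ≀ (X × S_n)`, `X` a finite group, `n ≥ |X|`, `n ≥ 120^3`. -/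
def AllProducts (P : ∀ d : ℕ, Subgroup (Equiv.Perm (Fin d)) → Prop) : Prop :=
  ∀ (X : Type) [Group X] [Finite X] (n : ℕ), 120 ^ 3 ≤ n → Nat.card X ≤ n →
    OrderTwo (X × Equiv.Perm (Fin n)) P

/-- The nilpotent residual of the subgroup `S`: the intersection of its lower central series
`S, [S, S], [[S, S], S], ...`. -/
def nilpotentResidual {X : Type} [Group X] (S : Subgroup X) : Subgroup X :=
  ⨅ n : ℕ, S.lowerCentralSeries n

/-- The iterated nilpotent residuals of `S`. -/
def residuals {X : Type} [Group X] (S : Subgroup X) : ℕ → Subgroup X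
  | 0 => S
  | i + 1 => nilpotentResidual (residuals S i)

instance nilpotentResidual_normal {X : Type} [Group X] (S : Subgroup X) [S.Normal] :
    (nilpotentResidual S).Normal :=
  Subgroup.normal_iInf_normal fun _ => inferInstance

/-- The condition on `S`: its iterated nilpotent residuals reach the trivial group, and from the
first one on their quotients are abelian. -/
def Tame {X : Type} [Group X] (S : Subgroup X) : Prop :=
  (∃ k, residuals S k = ⊥) ∧
    ∀ i, 1 ≤ i → ⁅residuals S i, residuals S i⁆ ≤ residuals S (i + 1)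

/-- `Γ` is isomorphic to a normal subgroup of a quotient of `G`. -/
def NormalInQuotient (Γ G : Type) [Group Γ] [Group G] : Prop :=
  ∃ M : Subgroup G, ∃ _ : M.Normal, ∃ S : Subgroup (G ⧸ M), S.Normal ∧ Nonempty (Γ ≃* S)

/-- The finite group `G` is the Galois group of a finite Galois extension of `K`. -/
def Realizable (K G : Type) [Field K] [Group G] : Prop :=
  ∃ (L : Type) (_ : Field L) (_ : Algebra K L) (_ : FiniteDimensional K L) (_ : IsGalois K L),
    Nonempty (G ≃* (L ≃ₐ[K] L))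

theorem a_eq {H : Type} [Group H] [Finite H] {d : ℕ} {G : Subgroup (Equiv.Perm (Fin d))}
    (hG : IsC2Wreath H G) : a G = 1 := by
  have h := Pool.Agent.TH444.ML.least_ind (H := H) hG
  have h2 : sInf {j : ℕ | ∃ g ∈ G, g ≠ 1 ∧ j = ind g} = 1 := h.csInf_eq
  unfold a
  rw [h2]
  simp

theorem N_eq (K : Type) [Field K] [NumberField K] (d : ℕ) (G : Subgroup (Equiv.Perm (Fin d)))
    (X : ℝ) : N K d G X = Set.ncard {L : IntermediateField K (AlgebraicClosure K) |
      Module.finrank K L = d ∧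
      (∃ e : (L →ₐ[K] AlgebraicClosure K) ≃ Fin d, ∀ π : Equiv.Perm (Fin d),
        π ∈ G ↔ ∃ σ : AlgebraicClosure K ≃ₐ[K] AlgebraicClosure K,
          ∀ φ : L →ₐ[K] AlgebraicClosure K, e (σ.toAlgHom.comp φ) = π (e φ)) ∧
      ∃ h : NumberField L,
        ((|@NumberField.discr L _ h| : ℤ) : ℝ) ≤ X * ((|NumberField.discr K| : ℤ) : ℝ) ^ d} := by
  unfold N
  congr 1
  ext L
  exact and_assoc

theorem of_data (K : Type) [Field K] [NumberField K] (H : Type) [Group H] [Finite H]
    (h2 : 2 ≤ Nat.card H) (U : Subgroup H) (hU : U.normalCore = ⊥)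
    (hc : 8 * U.index * (U.index + 1) ≤ Nat.card H)
    (hne : (Pool.Agent.TH444.ML.Gal K (AlgebraicClosure K) H).Nonempty) :
    OrderTwo H (Malle K) := by
  intro d G hG
  obtain ⟨-, c, hc0, hlim⟩ :=
    Pool.Agent.TH444.ML.asymp Pool.Agent.TH444.ML.rest K H h2 U hU hc hne G hG
  have ha := a_eq hG
  unfold Malle
  rw [ha]
  have hlim' : Tendsto (fun X : ℝ => (N K d G X : ℝ) / X) atTop (nhds c) := by
    simp only [N_eq]
    exact hlim
  refine ⟨⟨c, hc0, by simpa using hlim'⟩, ⟨c / 2, by positivity, ?_⟩, ?_⟩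
  · have h := (hlim'.eventually (lt_mem_nhds (by linarith : c / 2 < c))).and
      (eventually_gt_atTop (0 : ℝ))
    obtain ⟨X₀, hX₀⟩ := eventually_atTop.1 h
    refine ⟨X₀, fun X hX => ?_⟩
    obtain ⟨h3, h4⟩ := hX₀ X hX
    rw [lt_div_iff₀ h4] at h3
    rw [Real.rpow_one]
    exact h3.le
  · intro ε hε
    refine ⟨2 * c, by positivity, ?_⟩
    have h := (hlim'.eventually (gt_mem_nhds (by linarith : c < 2 * c))).and
      (eventually_ge_atTop (1 : ℝ))
    obtain ⟨X₀, hX₀⟩ := eventually_atTop.1 h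
    refine ⟨X₀, fun X hX => ?_⟩
    obtain ⟨h3, h4⟩ := hX₀ X hX
    have h5 : (0 : ℝ) < X := by linarith
    rw [div_lt_iff₀ h5] at h3
    refine h3.trans_le ?_
    apply mul_le_mul_of_nonneg_left _ (by positivity)
    calc X = X ^ (1 : ℝ) := (Real.rpow_one X).symm
      _ ≤ X ^ (1 + ε) := Real.rpow_le_rpow_of_exponent_le h4 (by linarith)

/-- The formula for `C₂ ≀ (X × S_n)` and `C₂ ≀ X`, if `X` is a Galois group. -/
theorem of_real (K : Type) [Field K] [NumberField K] (X : Type) [Group X] [Finite X]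
    (h : Realizable K X) :
    (∀ n : ℕ, 120 ^ 3 ≤ n → Nat.card X ≤ n → OrderTwo (X × Equiv.Perm (Fin n)) (Malle K)) ∧
    (∀ U : Subgroup X, U.normalCore = ⊥ → 8 * U.index * (U.index + 1) ≤ Nat.card X →
      OrderTwo X (Malle K)) := by
  refine ⟨fun n hn hX => ?_, fun U hU hc => ?_⟩
  · obtain ⟨h2, U, hU, hc⟩ := Pool.Agent.Q24.ML.core_prod X n (le_trans (by norm_num) hn) hX
    exact of_data K _ h2 U hU hc ((Pool.Agent.Q24.ML.real_iff K (AlgebraicClosure K) _).1
      ((Pool.Agent.Q24.ML.real_iff_prod K n hn).2 h))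
  · have h1 : 1 ≤ U.index := Nat.one_le_iff_ne_zero.2 Subgroup.index_ne_zero_of_finite
    have h2 : 2 ≤ Nat.card X := by nlinarith
    exact of_data K _ h2 U hU hc ((Pool.Agent.Q24.ML.real_iff K (AlgebraicClosure K) _).1 h)

lemma residuals_eq {X : Type} [Group X] (S : Subgroup X) :
    ∀ i, residuals S i = Pool.Agent.Q24.ML.ress S i
  | 0 => rfl
  | i + 1 => by
    change Pool.Agent.Q24.ML.nres (residuals S i) = Pool.Agent.Q24.ML.nres _
    rw [residuals_eq S i]

theorem real_of_tame (K : Type) [Field K] [NumberField K] {X : Type} [Group X] [Finite X]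
    (S : Subgroup X) [S.Normal] (h : Tame S) (hK : Realizable K (X ⧸ nilpotentResidual S)) :
    Realizable K X := by
  obtain ⟨⟨k, hk⟩, h2⟩ := h
  exact (Pool.Agent.Q24.ML.real_iff_quot K _ (Pool.Agent.Q24.ML.clsBy_nres S
    ⟨k, by rw [← residuals_eq]; exact hk⟩
    (fun i hi => by rw [← residuals_eq, ← residuals_eq]; exact h2 i hi))).2 hK

/-- The trivial subgroup satisfies the condition. -/
theorem tame_bot (X : Type) [Group X] : Tame (⊥ : Subgroup X) ∧
    nilpotentResidual (⊥ : Subgroup X) = ⊥ := by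
  have h1 : nilpotentResidual (⊥ : Subgroup X) = ⊥ := by
    rw [eq_bot_iff]
    exact iInf_le _ 0
  have h2 : ∀ i, residuals (⊥ : Subgroup X) i = ⊥ := by
    intro i
    induction i with
    | zero => rfl
    | succ i ih => rw [residuals, ih, h1]
  refine ⟨⟨⟨0, rfl⟩, fun i _ => ?_⟩, h1⟩
  rw [h2, h2]
  exact (Subgroup.commutator_le_left _ _)

/-- A group with the lower bound occurs. -/
theorem occurs_of_lower (K : Type) [Field K] [NumberField K] {d : ℕ}
    {G : Subgroup (Equiv.Perm (Fin d))} (h : LowerBound K d G) : ∃ L, HasGroup K d G L := by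
  obtain ⟨c₁, hc, X₀, hX⟩ := h
  have h1 := hX (max X₀ 1) (le_max_left _ _)
  have h2 : (0 : ℝ) < c₁ * (max X₀ 1) ^ a G := by positivity
  have h3 : (0 : ℝ) < N K d G (max X₀ 1) := h2.trans_le h1
  have h4 : 0 < N K d G (max X₀ 1) := by exact_mod_cast h3
  obtain ⟨L, hL, -⟩ := Set.nonempty_of_ncard_ne_zero h4.ne'
  exact ⟨L, hL⟩

/-- **One field suffices.** -/
theorem result :
    (∀ (Y : Type) [Group Y] [Finite Y], ∃ (Γ : Type) (_ : Group Γ), Finite Γ ∧
      ∀ (K : Type) [Field K] [NumberField K] (d : ℕ) (G : Subgroup (Equiv.Perm (Fin d))),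
        NormalInQuotient Γ G → (∃ L, HasGroup K d G L) →
        ∀ (X : Type) [Group X] [Finite X] (S : Subgroup X) [S.Normal], Tame S →
        Nonempty (X ⧸ nilpotentResidual S ≃* Y) →
        (∀ n : ℕ, 120 ^ 3 ≤ n → Nat.card X ≤ n →
          OrderTwo (X × Equiv.Perm (Fin n)) (Malle K)) ∧
        (∀ U : Subgroup X, U.normalCore = ⊥ → 8 * U.index * (U.index + 1) ≤ Nat.card X →
          OrderTwo X (Malle K))) ∧
    (∀ (X : Type) [Group X], Tame (⊥ : Subgroup X) ∧ nilpotentResidual (⊥ : Subgroup X) = ⊥) ∧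
    (∀ (K : Type) [Field K] [NumberField K], List.TFAE [
      ∀ (Γ : Type) [Group Γ] [Finite Γ], ∃ (d : ℕ) (G : Subgroup (Equiv.Perm (Fin d))),
        NormalInQuotient Γ G ∧ ∃ L, HasGroup K d G L,
      ∀ (Γ : Type) [Group Γ] [Finite Γ], ∃ (d : ℕ) (G : Subgroup (Equiv.Perm (Fin d))),
        NormalInQuotient Γ G ∧ LowerBound K d G,
      AllProducts (LowerBound K),
      AllProducts (Malle K),
      ∀ (X : Type) [Group X] [Finite X], Realizable K X]) := by
  refine ⟨fun Y _ _ => ?_, fun X _ => tame_bot X, fun K _ _ => ?_⟩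
  · obtain ⟨Γ, gΓ, hΓ, h⟩ := Pool.Agent.Q24.MS.exists_gamma Y
    refine ⟨Γ, gΓ, hΓ, fun K _ _ d G hG ⟨L, hL⟩ X _ _ S _ hS ⟨e⟩ => of_real K X ?_⟩
    have h1 : Realizable K Y :=
      Pool.Agent.Q24.MS.real_of_normal h hG (Pool.Agent.Q24.MS.real_of_hasGroup K hL)
    exact real_of_tame K S hS (Pool.Agent.Q24.ML.Real.congr e.symm h1)
  · tfae_have 5 → 4 := fun h X _ _ n hn hX => (of_real K X (h X)).1 n hn hX
    tfae_have 4 → 3 := fun h X _ _ n hn hX d G hG => (h X n hn hX d G hG).2.1
    tfae_have 3 → 2 := by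
      intro h Γ _ _
      have hn : 120 ^ 3 ≤ max (120 ^ 3) (Nat.card Γ) := le_max_left _ _
      have hX : Nat.card Γ ≤ max (120 ^ 3) (Nat.card Γ) := le_max_right _ _
      generalize max (120 ^ 3) (Nat.card Γ) = n at hn hX
      obtain ⟨d, G, -, hG, -⟩ := Pool.Agent.Q24.ML.exists_group (Γ × Equiv.Perm (Fin n))
      obtain ⟨p, hp⟩ := Pool.Agent.Q24.MS.exists_proj hG
      refine ⟨d, G, ?_, h Γ n hn hX d G hG⟩
      exact Pool.Agent.Q24.MS.NormalInQuotient.of_surj ((MonoidHom.fst Γ _).comp p)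
        (Prod.fst_surjective.comp hp)
    tfae_have 2 → 1 := by
      intro h Γ _ _
      obtain ⟨d, G, h1, h2⟩ := h Γ
      exact ⟨d, G, h1, occurs_of_lower K h2⟩
    tfae_have 1 → 5 := by
      intro h X _ _
      obtain ⟨Γ, gΓ, hΓ, h1⟩ := Pool.Agent.Q24.MS.exists_gamma X
      obtain ⟨d, G, hG, L, hL⟩ := h Γ
      exact Pool.Agent.Q24.MS.real_of_normal h1 hG (Pool.Agent.Q24.MS.real_of_hasGroup K hL)
    tfae_finish

end Pool.Agent.Results.MP_af4c59_nt.OneFieldSuffices
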