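import Mathlib
import Pool.Agent.Q24.ML.Iff

/-!
# Malle's conjecture for `C₂ ≀ X` and nilpotent residuals

Let `X` be a finite group and `N` a normal subgroup of `X` whose iterated nilpotent residuals
`N = N_0 ≥ N_1 ≥ N_2 ≥ ...` reach the trivial group, with `N_i / N_(i+1)` abelian for `i ≥ 1` (for
instance: `N` solvable with abelian Sylow subgroups, when `N_1 = [N, N]`; or `N_1` abelian).
Let `H = X × S_n` with `n ≥ |X|`, `n ≥ 120^3`, or let `H = X`, if `X` has a subgroup `U` of index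
`u` with trivial normal core and `8 u (u + 1) ≤ |X|`. Then Malle's conjecture (weak form and
asymptotic formula) holds for `C₂ ≀ H`, acting on `H × {0, 1}`, over the number field `K` if and only
if `X / N_1` is a Galois group over `K`. It therefore holds over all number fields if
`X / N_1` is isomorphic to `A ≀ S_m`, `A` any finite group, `m ≥ ((3 |A| + 2)!)^3`.
-/

set_option autoImplicit false

open Filter
open Pool.Agent.H391R2 (Wr)

namespace Pool.Agent.Results.MP_af4c59_nt.OrderTwoResiduals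

/-- `G ≤ S_d` is, up to a bijection `f` of `{1, ..., d}` with `H × {0, 1}`, the wreath product
`C₂ ≀ H`: it consists of all permutations `π` for which there is `h ∈ H` such that `π` maps the block
`{x} × {0, 1}` to the block `{h x} × {0, 1}`, for all `x ∈ H`. -/
def IsC2Wreath (H : Type) [Group H] {d : ℕ} (G : Subgroup (Equiv.Perm (Fin d))) : Prop :=
  ∃ f : Fin d ≃ H × Bool, ∀ π : Equiv.Perm (Fin d), π ∈ G ↔ ∃ h : H, ∀ i, (f (π i)).1 = h * (f i).1

/-- The index of a permutation: `d` minus the number of its cycles, fixed points included. -/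
def ind {d : ℕ} (g : Equiv.Perm (Fin d)) : ℕ := g.cycleType.sum - Multiset.card g.cycleType

/-- `a(G) = 1 / min ind(g)`, the minimum over the `g ≠ 1` in `G`. -/
noncomputable def a {d : ℕ} (G : Subgroup (Equiv.Perm (Fin d))) : ℝ :=
  1 / (sInf {j : ℕ | ∃ g ∈ G, g ≠ 1 ∧ j = ind g} : ℕ)

/-- `N_{d,K}(X; G)`: the number of fields `L` between `K` and its algebraic closure, of degree `d`
over `K`, whose Galois group, acting on the embeddings, is `G` (up to numbering), and whose relative
discriminant has norm at most `X` (that is, `|d_L| ≤ X |d_K| ^ d`). -/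
noncomputable def N (K : Type) [Field K] [NumberField K] (d : ℕ)
    (G : Subgroup (Equiv.Perm (Fin d))) (X : ℝ) : ℕ :=
  Set.ncard {L : IntermediateField K (AlgebraicClosure K) |
    Module.finrank K L = d ∧
    (∃ e : (L →ₐ[K] AlgebraicClosure K) ≃ Fin d, ∀ π : Equiv.Perm (Fin d),
      π ∈ G ↔ ∃ σ : AlgebraicClosure K ≃ₐ[K] AlgebraicClosure K,
        ∀ φ : L →ₐ[K] AlgebraicClosure K, e (σ.toAlgHom.comp φ) = π (e φ)) ∧
    ∃ h : NumberField L,
      ((|@NumberField.discr L _ h| : ℤ) : ℝ) ≤ X * ((|NumberField.discr K| : ℤ) : ℝ) ^ d}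

/-- Malle's conjecture for `(K, G)`: the asymptotic formula `N_{d,K}(X; G) ~ c X ^ a(G)` (so
`b(K, G) = 1`), and the inequalities of the weak form. -/
def Malle (K : Type) [Field K] [NumberField K] (d : ℕ) (G : Subgroup (Equiv.Perm (Fin d))) :
    Prop :=
  (∃ c : ℝ, 0 < c ∧ Tendsto (fun X : ℝ => (N K d G X : ℝ) / X ^ a G) atTop (nhds c)) ∧
  (∃ c₁ : ℝ, 0 < c₁ ∧ ∃ X₀ : ℝ, ∀ X : ℝ, X₀ ≤ X → c₁ * X ^ a G ≤ N K d G X) ∧
  (∀ ε : ℝ, 0 < ε → ∃ c₂ : ℝ, 0 < c₂ ∧ ∃ X₀ : ℝ, ∀ X : ℝ, X₀ ≤ X →
    (N K d G X : ℝ) < c₂ * X ^ (a G + ε))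

/-- The lower bound of the weak form of Malle's conjecture for `(K, G)`. -/
def LowerBound (K : Type) [Field K] [NumberField K] (d : ℕ) (G : Subgroup (Equiv.Perm (Fin d))) :
    Prop :=
  ∃ c₁ : ℝ, 0 < c₁ ∧ ∃ X₀ : ℝ, ∀ X : ℝ, X₀ ≤ X → c₁ * X ^ a G ≤ N K d G X

/-- The wreath product `C₂ ≀ H`, `H` in its regular action, satisfies `P` (as a subgroup `G` of
`S_d`, `d = 2 |H|`, for every numbering of `H × {0, 1}`). -/
def OrderTwo (H : Type) [Group H]
    (P : ∀ d : ℕ, Subgroup (Equiv.Perm (Fin d)) → Prop) : Prop :=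
  ∀ (d : ℕ) (G : Subgroup (Equiv.Perm (Fin d))), IsC2Wreath H G → P d G

/-- The finite group `G` is the Galois group of a finite Galois extension of `K`. -/
def Realizable (K G : Type) [Field K] [Group G] : Prop :=
  ∃ (L : Type) (_ : Field L) (_ : Algebra K L) (_ : FiniteDimensional K L) (_ : IsGalois K L),
    Nonempty (G ≃* (L ≃ₐ[K] L))

/-- Over `K`, three properties are equivalent: Malle's conjecture for `C₂ ≀ H`, the lower bound of
its weak form, and that `Y` is a Galois group. -/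
def Decided (K H Y : Type) [Field K] [NumberField K] [Group H] [Group Y] : Prop :=
  (OrderTwo H (Malle K) ↔ Realizable K Y) ∧ (OrderTwo H (LowerBound K) ↔ Realizable K Y)

/-- Over every number field `K`, Malle's conjecture for `C₂ ≀ H` and the realizability of `Y` are
equivalent, for `H = X × S_n` with `n ≥ |X|`, `n ≥ 120^3`, and for `H = X`, if `X` has a subgroup `U`
of index `u` with trivial normal core and `8 u (u + 1) ≤ |X|`. -/
def Governs (X Y : Type) [Group X] [Group Y] : Prop :=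
  ∀ (K : Type) [Field K] [NumberField K],
    (∀ n : ℕ, 120 ^ 3 ≤ n → Nat.card X ≤ n → Decided K (X × Equiv.Perm (Fin n)) Y) ∧
    (∀ U : Subgroup X, U.normalCore = ⊥ → 8 * U.index * (U.index + 1) ≤ Nat.card X →
      Decided K X Y)

/-- The nilpotent residual of the subgroup `S`: the intersection of its lower central series
`S, [S, S], [[S, S], S], ...`. -/
def nilpotentResidual {X : Type} [Group X] (S : Subgroup X) : Subgroup X :=
  ⨅ n : ℕ, S.lowerCentralSeries n

/-- The iterated nilpotent residuals of `S`. -/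
def residuals {X : Type} [Group X] (S : Subgroup X) : ℕ → Subgroup X
  | 0 => S
  | i + 1 => nilpotentResidual (residuals S i)

instance nilpotentResidual_normal {X : Type} [Group X] (S : Subgroup X) [S.Normal] :
    (nilpotentResidual S).Normal :=
  Subgroup.normal_iInf_normal fun _ => inferInstance

/-- The condition on `S`: its iterated nilpotent residuals reach the trivial group, and from the
first one on their quotients are abelian. -/
def Tame {X : Type} [Group X] (S : Subgroup X) : Prop :=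
  (∃ k, residuals S k = ⊥) ∧
    ∀ i, 1 ≤ i → ⁅residuals S i, residuals S i⁆ ≤ residuals S (i + 1)

lemma residuals_eq {X : Type} [Group X] (S : Subgroup X) :
    ∀ i, residuals S i = Pool.Agent.Q24.ML.ress S i
  | 0 => rfl
  | i + 1 => by
    change Pool.Agent.Q24.ML.nres (residuals S i) = Pool.Agent.Q24.ML.nres _
    rw [residuals_eq S i]

theorem a_eq {H : Type} [Group H] [Finite H] {d : ℕ} {G : Subgroup (Equiv.Perm (Fin d))}
    (hG : IsC2Wreath H G) : a G = 1 := by
  have h := Pool.Agent.TH444.ML.least_ind (H := H) hG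
  have h2 : sInf {j : ℕ | ∃ g ∈ G, g ≠ 1 ∧ j = ind g} = 1 := h.csInf_eq
  unfold a
  rw [h2]
  simp

theorem of_data (K : Type) [Field K] [NumberField K] (H : Type) [Group H] [Finite H]
    (h2 : 2 ≤ Nat.card H) (U : Subgroup H) (hU : U.normalCore = ⊥)
    (hc : 8 * U.index * (U.index + 1) ≤ Nat.card H)
    (hne : (Pool.Agent.TH444.ML.Gal K (AlgebraicClosure K) H).Nonempty) :
    OrderTwo H (Malle K) := by
  intro d G hG
  obtain ⟨-, c, hc0, hlim⟩ :=
    Pool.Agent.TH444.ML.asymp Pool.Agent.TH444.ML.rest K H h2 U hU hc hne G hG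
  have ha := a_eq hG
  unfold Malle
  rw [ha]
  have hlim' : Tendsto (fun X : ℝ => (N K d G X : ℝ) / X) atTop (nhds c) := hlim
  refine ⟨⟨c, hc0, by simpa using hlim'⟩, ⟨c / 2, by positivity, ?_⟩, ?_⟩
  · have h := (hlim'.eventually (lt_mem_nhds (by linarith : c / 2 < c))).and
      (eventually_gt_atTop (0 : ℝ))
    obtain ⟨X₀, hX₀⟩ := eventually_atTop.1 h
    refine ⟨X₀, fun X hX => ?_⟩
    obtain ⟨h3, h4⟩ := hX₀ X hX
    rw [lt_div_iff₀ h4] at h3
    rw [Real.rpow_one]
    exact h3.le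
  · intro ε hε
    refine ⟨2 * c, by positivity, ?_⟩
    have h := (hlim'.eventually (gt_mem_nhds (by linarith : c < 2 * c))).and
      (eventually_ge_atTop (1 : ℝ))
    obtain ⟨X₀, hX₀⟩ := eventually_atTop.1 h
    refine ⟨X₀, fun X hX => ?_⟩
    obtain ⟨h3, h4⟩ := hX₀ X hX
    have h5 : (0 : ℝ) < X := by linarith
    rw [div_lt_iff₀ h5] at h3
    refine h3.trans_le ?_
    apply mul_le_mul_of_nonneg_left _ (by positivity)
    calc X = X ^ (1 : ℝ) := (Real.rpow_one X).symm
      _ ≤ X ^ (1 + ε) := Real.rpow_le_rpow_of_exponent_le h4 (by linarith)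

theorem real_of_lower (K : Type) [Field K] [NumberField K] (H : Type) [Group H] [Finite H]
    (h : OrderTwo H (LowerBound K)) : Realizable K H := by
  obtain ⟨d, G, -, hG, -⟩ := Pool.Agent.Q24.ML.exists_group H
  obtain ⟨c₁, hc, X₀, hX⟩ := h d G hG
  have h1 := hX (max X₀ 1) (le_max_left _ _)
  have h2 : (0 : ℝ) < c₁ * (max X₀ 1) ^ a G := by positivity
  have h3 : (0 : ℝ) < N K d G (max X₀ 1) := h2.trans_le h1
  have h4 : 0 < N K d G (max X₀ 1) := by exact_mod_cast h3
  exact Pool.Agent.Q24.ML.real_of_cnt K hG (max X₀ 1) (Set.nonempty_of_ncard_ne_zero h4.ne')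

theorem decided (K : Type) [Field K] [NumberField K] (H Y : Type) [Group H] [Finite H] [Group Y]
    (h2 : 2 ≤ Nat.card H) (U : Subgroup H) (hU : U.normalCore = ⊥)
    (hc : 8 * U.index * (U.index + 1) ≤ Nat.card H)
    (hr : Pool.Agent.Q24.ML.Real K H ↔ Pool.Agent.Q24.ML.Real K Y) : Decided K H Y := by
  have h1 : Realizable K Y → OrderTwo H (Malle K) := fun h =>
    of_data K H h2 U hU hc ((Pool.Agent.Q24.ML.real_iff K (AlgebraicClosure K) H).1 (hr.2 h))
  have h3 : OrderTwo H (Malle K) → OrderTwo H (LowerBound K) := fun h d G hG => (h d G hG).2.1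
  have h4 : OrderTwo H (LowerBound K) → Realizable K Y := fun h => hr.1 (real_of_lower K H h)
  exact ⟨⟨fun h => h4 (h3 h), h1⟩, ⟨h4, fun h => h3 (h1 h)⟩⟩

theorem governs {X : Type} [Group X] [Finite X] (M : Subgroup X) [M.Normal]
    (h : Pool.Agent.Q24.ML.ClsBy M) : Governs X (X ⧸ M) := by
  intro K _ _
  have hr := Pool.Agent.Q24.ML.real_iff_quot K M h
  refine ⟨fun n hn hX => ?_, fun U hU hc => ?_⟩
  · obtain ⟨h2, U, hU, hc⟩ := Pool.Agent.Q24.ML.core_prod X n (le_trans (by norm_num) hn) hX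
    exact decided K _ _ h2 U hU hc ((Pool.Agent.Q24.ML.real_iff_prod K n hn).trans hr)
  · have h1 : 1 ≤ U.index := Nat.one_le_iff_ne_zero.2 Subgroup.index_ne_zero_of_finite
    have h2 : 2 ≤ Nat.card X := by nlinarith
    exact decided K _ _ h2 U hU hc hr

theorem governs_residual {X : Type} [Group X] [Finite X] (S : Subgroup X) [S.Normal]
    (h : Tame S) : Governs X (X ⧸ nilpotentResidual S) := by
  apply governs
  obtain ⟨⟨k, hk⟩, h2⟩ := h
  exact Pool.Agent.Q24.ML.clsBy_nres S ⟨k, by rw [← residuals_eq]; exact hk⟩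
    (fun i hi => by rw [← residuals_eq, ← residuals_eq]; exact h2 i hi)

end Pool.Agent.Results.MP_af4c59_nt.OrderTwoResiduals

open Pool.Agent.Results.MP_af4c59_nt.OrderTwoResiduals in
/-- Malle's conjecture for `C₂ ≀ (X × S_n)` and `C₂ ≀ X` over `K` is equivalent to the realizability
of `X / N_1` over `K` (first three parts), and holds over all number fields if `X / N_1` is a wreath
product `A ≀ S_m` with `m` large (last part). -/
theorem Pool.Agent.Results.MP_af4c59_nt.OrderTwoResiduals.result :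
    (∀ (X : Type) [Group X] [Finite X] (S : Subgroup X) [S.Normal], Tame S →
      Governs X (X ⧸ nilpotentResidual S)) ∧
    (∀ (X : Type) [Group X] [Finite X] (S : Subgroup X) [S.Normal], Group.IsSolvable S →
      (∀ (p : ℕ) [Fact p.Prime] (P : Sylow p S), ∀ x ∈ P, ∀ y ∈ P, x * y = y * x) →
      Governs X (X ⧸ ⁅S, S⁆)) ∧
    (∀ (X : Type) [Group X] [Finite X] (S : Subgroup X) [S.Normal],
      (∀ x ∈ nilpotentResidual S, ∀ y ∈ nilpotentResidual S, x * y = y * x) →
      Governs X (X ⧸ nilpotentResidual S)) ∧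
    (∀ (X : Type) [Group X] [Finite X] (S : Subgroup X) [S.Normal], Tame S →
      ∀ (A : Type) [Group A] [Finite A] (m : ℕ), ((3 * Nat.card A + 2).factorial) ^ 3 ≤ m →
      Nonempty (X ⧸ nilpotentResidual S ≃* Wr A m) → ∀ (K : Type) [Field K] [NumberField K],
      (∀ n : ℕ, 120 ^ 3 ≤ n → Nat.card X ≤ n →
        OrderTwo (X × Equiv.Perm (Fin n)) (Malle K)) ∧
      (∀ U : Subgroup X, U.normalCore = ⊥ → 8 * U.index * (U.index + 1) ≤ Nat.card X →
        OrderTwo X (Malle K))) := by
  refine ⟨fun X _ _ S _ h => governs_residual S h,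
    fun X _ _ S _ h1 h2 => governs _ (Pool.Agent.Q24.ML.clsBy_sylow S h1 h2),
    fun X _ _ S _ h => governs _ (Pool.Agent.Q24.ML.clsBy_abel S h), ?_⟩
  intro X _ _ S _ h A _ _ m hm ⟨e⟩ K _ _
  obtain ⟨h1, h2⟩ := governs_residual S h K
  obtain ⟨-, -, hne⟩ := Pool.Agent.TH444.ML.wr_data K A m hm
  have h3 : Realizable K (X ⧸ nilpotentResidual S) :=
    ((Pool.Agent.Q24.ML.real_iff K (AlgebraicClosure K) _).2 hne).congr e.symm
  exact ⟨fun n hn hX => (h1 n hn hX).1.2 h3, fun U hU hc => (h2 U hU hc).1.2 h3⟩
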