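import Pool.Agent.Q52.WM.End

/-!
# The upper half of the weak Malle conjecture reduces to products with groups of prime order over
the rational numbers
-/

set_option autoImplicit false

namespace Pool.Agent.Results.MP_af4c59_nt.ProductsOverQ

open Equiv Pool.Agent.Q52.WM

theorem result :
    -- (1) from `K` to `ℚ`
    (∀ (K : Type) [Field K] [NumberField K] (m : ℕ) (H : Subgroup (Perm (Fin m))),
      IsGroupOf ℚ K H → ∀ (n : ℕ) (G : Subgroup (Perm (Fin n))), 2 ≤ n → Transitive G →
        (∀ X : ℝ, (Fields K n G X).Finite ∧ N K n G X ≤ ∑ᶠ G' ∈ Wreath G H,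
          N ℚ (m * n) G' (X * ((|NumberField.discr K| : ℤ) : ℝ) ^ n)) ∧
        (∀ G' ∈ Wreath G H, a G' ≤ a G) ∧
        ((∀ G' ∈ Wreath G H, Upper ℚ (m * n) G') → Upper K n G)) ∧
    -- (2) from `G` to `G × C`
    (∀ p n : ℕ, p.Prime → 2 ≤ n → n < p → ∃ c : ℝ, 0 < c ∧
      ∀ C : Subgroup (Perm (Fin p)), Nat.card C = p →
        ∀ G : Subgroup (Perm (Fin n)), Transitive G →
          (∀ X : ℝ, 0 ≤ X → N ℚ n G X ≤ N ℚ (p * n) (Direct G C) (c * X ^ p)) ∧
          Transitive (Direct G C) ∧ a (Direct G C) = a G / p ∧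
          (Upper ℚ (p * n) (Direct G C) → Upper ℚ n G) ∧
          (Lower ℚ n G → Lower ℚ (p * n) (Direct G C))) ∧
    -- (3) the upper half for classes of finite groups
    (∀ P : (A : Type) → [Group A] → Prop, Closed P → PrimeOrders P →
      ∀ B : ℕ, UpperEverywhere P ↔ UpperProducts P B) ∧
    (∀ B : ℕ, UpperEverywhere (fun A [Group A] => Group.IsSolvable A) ↔
      UpperProducts (fun A [Group A] => Group.IsSolvable A) B) ∧
    -- (4) Q1
    ∀ B : ℕ, Q1 ↔ UpperProducts (fun (A : Type) [Group A] => True) B ∧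
      ∀ (K : Type) [Field K] [NumberField K] (n : ℕ) (G : Subgroup (Perm (Fin n))), 2 ≤ n →
        Transitive G → Lower K n G := by
  refine ⟨?_, ?_, fun P h1 h2 B => products_iff h1 h2 B, fun B =>
    products_iff solvable_closed solvable_prime B, fun B => q1_iff B⟩
  · intro K _ _ m H hH n G hn hG
    exact ⟨fun X => N_le K G H hH X, fun G' hG' => a_le hn
      (wreath_deg (one_le_of_group K hH) hn) hG hG'.1 hG'.2, fun h => upper_of K hn hG hH h⟩
  · intro p n hp hn hnp
    obtain ⟨c, hc, h⟩ := N_direct hp (by omega : 0 < n) hnp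
    exact ⟨c, hc, fun C hC G hG => ⟨h C hC G, direct_trans hG (trans_of_card hp hC),
      a_direct hp hn hnp hG hC, upper_direct hp hn hnp hC hG, lower_direct hp hn hnp hC hG⟩⟩

end Pool.Agent.Results.MP_af4c59_nt.ProductsOverQ
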