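import Mathlib
import Pool.Agent.Q17.ML2.Fin

/-!
# Malle's conjecture for transitive groups with a transposition and blocks of size two

Let `G ≤ S_n` be a transitive group which contains a transposition and has a system `B` of blocks of
size two. Then `G` is the wreath product `C₂ ≀ (H, Δ)`, where `H` is the transitive group which `G`
induces on the set `Δ` of the blocks. Assume that `G` has a second system `C` of blocks, each a union
of blocks in `B`, with `c` blocks, `16 c (c + 1) ≤ n`, such that an element of `G` which maps every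
block in `C` to itself does the same for `B`. Then for every number field `K` Malle's conjecture for
`(K, G)` (asymptotic formula and weak form) is equivalent to the realizability of `G` over `K`.
`H` need not act regularly on `Δ`: for instance `H = S_m` acting on the `k`-tuples of different
elements of `{1, ..., m}`, `k ≥ 3`.
-/

set_option autoImplicit false

open Filter

namespace Pool.Agent.Results.MP_af4c59_nt.Transpositions

/-- The index of a permutation: `n` minus the number of its cycles, fixed points included. -/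
def ind {n : ℕ} (g : Equiv.Perm (Fin n)) : ℕ := g.cycleType.sum - Multiset.card g.cycleType

/-- `a(G) = 1 / min ind(g)`, the minimum over the `g ≠ 1` in `G`. -/
noncomputable def a {n : ℕ} (G : Subgroup (Equiv.Perm (Fin n))) : ℝ :=
  1 / (sInf {j : ℕ | ∃ g ∈ G, g ≠ 1 ∧ j = ind g} : ℕ)

/-- `N_{n,K}(X; G)`: the number of fields `L` between `K` and its algebraic closure, of degree `n`
over `K`, whose Galois group, acting on the embeddings, is `G` (up to numbering), and whose relative
discriminant has norm at most `X` (that is, `|d_L| ≤ X |d_K| ^ n`). -/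
noncomputable def N (K : Type) [Field K] [NumberField K] (n : ℕ)
    (G : Subgroup (Equiv.Perm (Fin n))) (X : ℝ) : ℕ :=
  Set.ncard {L : IntermediateField K (AlgebraicClosure K) |
    Module.finrank K L = n ∧
    (∃ e : (L →ₐ[K] AlgebraicClosure K) ≃ Fin n, ∀ π : Equiv.Perm (Fin n),
      π ∈ G ↔ ∃ σ : AlgebraicClosure K ≃ₐ[K] AlgebraicClosure K,
        ∀ φ : L →ₐ[K] AlgebraicClosure K, e (σ.toAlgHom.comp φ) = π (e φ)) ∧
    ∃ h : NumberField L,
      ((|@NumberField.discr L _ h| : ℤ) : ℝ) ≤ X * ((|NumberField.discr K| : ℤ) : ℝ) ^ n}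

/-- Malle's conjecture for `(K, G)`: the asymptotic formula `N_{n,K}(X; G) ~ c X ^ a(G)` (so
`b(K, G) = 1`), and the inequalities of the weak form. -/
def Malle (K : Type) [Field K] [NumberField K] (n : ℕ) (G : Subgroup (Equiv.Perm (Fin n))) :
    Prop :=
  (∃ c : ℝ, 0 < c ∧ Tendsto (fun X : ℝ => (N K n G X : ℝ) / X ^ a G) atTop (nhds c)) ∧
  (∃ c₁ : ℝ, 0 < c₁ ∧ ∃ X₀ : ℝ, ∀ X : ℝ, X₀ ≤ X → c₁ * X ^ a G ≤ N K n G X) ∧
  (∀ ε : ℝ, 0 < ε → ∃ c₂ : ℝ, 0 < c₂ ∧ ∃ X₀ : ℝ, ∀ X : ℝ, X₀ ≤ X →
    (N K n G X : ℝ) < c₂ * X ^ (a G + ε))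

/-- The lower bound of the weak form of Malle's conjecture for `(K, G)`. -/
def LowerBound (K : Type) [Field K] [NumberField K] (n : ℕ) (G : Subgroup (Equiv.Perm (Fin n))) :
    Prop :=
  ∃ c₁ : ℝ, 0 < c₁ ∧ ∃ X₀ : ℝ, ∀ X : ℝ, X₀ ≤ X → c₁ * X ^ a G ≤ N K n G X

/-- The finite group `X` is the Galois group of a finite Galois extension of `K`. -/
def Realizable (K X : Type) [Field K] [Group X] : Prop :=
  ∃ (L : Type) (_ : Field L) (_ : Algebra K L) (_ : FiniteDimensional K L) (_ : IsGalois K L),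
    Nonempty (X ≃* (L ≃ₐ[K] L))

/-- The equivalence relation `B` is invariant under `G`: its classes are blocks. -/
def Invariant {n : ℕ} (G : Subgroup (Equiv.Perm (Fin n))) (B : Setoid (Fin n)) : Prop :=
  ∀ g ∈ G, ∀ i j, B i j → B (g i) (g j)

/-- `G` is transitive and contains a transposition, the classes of `B` are blocks of size two, and
the classes of `C ≥ B` are blocks; there are `c` of them, `16 c (c + 1) ≤ n`, and an element of `G`
which maps all of them to themselves does the same for the classes of `B`. -/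
def Cond {n : ℕ} (G : Subgroup (Equiv.Perm (Fin n))) (B C : Setoid (Fin n)) : Prop :=
  (∀ i j, ∃ g ∈ G, g i = j) ∧ (∃ i j, i ≠ j ∧ Equiv.swap i j ∈ G) ∧
  Invariant G B ∧ (∀ i, {j | B i j}.ncard = 2) ∧ Invariant G C ∧ B ≤ C ∧
  16 * Nat.card (Quotient C) * (Nat.card (Quotient C) + 1) ≤ n ∧
  ∀ g ∈ G, (∀ i, C i (g i)) → ∀ i, B i (g i)

/-- `G ≤ S_n` is, up to numbering, the wreath product `C₂ ≀ (H, Δ)`: the group of all permutations of
`Δ × {0, 1}` for which there is `h ∈ H` such that they map the block `{x} × {0, 1}` to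
`{act h x} × {0, 1}`, for all `x ∈ Δ`. -/
def IsWreath {H Δ : Type} (act : H → Δ → Δ) {n : ℕ} (G : Subgroup (Equiv.Perm (Fin n))) : Prop :=
  ∃ f : Fin n ≃ Δ × Bool, ∀ π : Equiv.Perm (Fin n), π ∈ G ↔ ∃ h : H, ∀ i, (f (π i)).1 = act h (f i).1

section proof

open Pool.Agent.Q17.ML2 (IsC2WrS parts)

theorem a_eq {H : Type} [Group H] [Finite H] {W : Subgroup H} {n : ℕ}
    {G : Subgroup (Equiv.Perm (Fin n))} (hG : IsC2WrS H W G) : a G = 1 := by
  obtain ⟨-, h, -⟩ := parts.pg H W n G hG
  have h2 : sInf {j : ℕ | ∃ g ∈ G, g ≠ 1 ∧ j = ind g} = 1 := h.csInf_eq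
  unfold a
  rw [h2]
  simp

theorem of_real (K : Type) [Field K] [NumberField K] {H : Type} [Group H] [Finite H]
    {W U : Subgroup H} (hWU : W ≤ U) (hU : U.normalCore = ⊥)
    (hc : 8 * U.index * (U.index + 1) ≤ W.index) {n : ℕ} {G : Subgroup (Equiv.Perm (Fin n))}
    (hG : IsC2WrS H W G) (h : Realizable K H) : Malle K n G := by
  obtain ⟨-, c, hc0, hlim⟩ := Pool.Agent.Q17.ML2.asympS parts K H W U hWU hU hc
    ((Pool.Agent.Q24.ML.real_iff K (AlgebraicClosure K) H).1 h) G hG
  have ha := a_eq hG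
  unfold Malle
  rw [ha]
  have hlim' : Tendsto (fun X : ℝ => (N K n G X : ℝ) / X) atTop (nhds c) := hlim
  refine ⟨⟨c, hc0, by simpa using hlim'⟩, ⟨c / 2, by positivity, ?_⟩, ?_⟩
  · have h := (hlim'.eventually (lt_mem_nhds (by linarith : c / 2 < c))).and
      (eventually_gt_atTop (0 : ℝ))
    obtain ⟨X₀, hX₀⟩ := eventually_atTop.1 h
    refine ⟨X₀, fun X hX => ?_⟩
    obtain ⟨h3, h4⟩ := hX₀ X hX
    rw [lt_div_iff₀ h4] at h3
    rw [Real.rpow_one]
    exact h3.le
  · intro ε hε
    refine ⟨2 * c, by positivity, ?_⟩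
    have h := (hlim'.eventually (gt_mem_nhds (by linarith : c < 2 * c))).and
      (eventually_ge_atTop (1 : ℝ))
    obtain ⟨X₀, hX₀⟩ := eventually_atTop.1 h
    refine ⟨X₀, fun X hX => ?_⟩
    obtain ⟨h3, h4⟩ := hX₀ X hX
    have h5 : (0 : ℝ) < X := by linarith
    rw [div_lt_iff₀ h5] at h3
    refine h3.trans_le ?_
    apply mul_le_mul_of_nonneg_left _ (by positivity)
    calc X = X ^ (1 : ℝ) := (Real.rpow_one X).symm
      _ ≤ X ^ (1 + ε) := Real.rpow_le_rpow_of_exponent_le h4 (by linarith)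

theorem of_lower (K : Type) [Field K] [NumberField K] {H : Type} [Group H] [Finite H]
    {W : Subgroup H} (hW : W.normalCore = ⊥) {n : ℕ} {G : Subgroup (Equiv.Perm (Fin n))}
    (hG : IsC2WrS H W G) (h : LowerBound K n G) : Realizable K H ∧ Realizable K G := by
  obtain ⟨c₁, hc, X₀, hX⟩ := h
  have h1 := hX (max X₀ 1) (le_max_left _ _)
  have h2 : (0 : ℝ) < c₁ * (max X₀ 1) ^ a G := by positivity
  have h3 : (0 : ℝ) < N K n G (max X₀ 1) := h2.trans_le h1
  have h4 : 0 < N K n G (max X₀ 1) := by exact_mod_cast h3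
  have h5 := Set.nonempty_of_ncard_ne_zero h4.ne'
  exact ⟨Pool.Agent.Q17.ML2.real_of_cntS parts K hW hG (max X₀ 1) h5,
    Pool.Agent.Q17.ML2.real_group_of_cnt parts Pool.Agent.Q17.ML2.rg K hG (max X₀ 1) h5⟩

end proof

end Pool.Agent.Results.MP_af4c59_nt.Transpositions

open Pool.Agent.Results.MP_af4c59_nt.Transpositions in
/-- (1) Under `Cond` Malle's conjecture for `(K, G)`, the lower bound of its weak form, and the
realizability of `G` over `K` are equivalent, for every number field `K`. (2) Malle's conjecture holds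
over all `K` for `C₂ ≀ S_m`, where `S_m` acts on the `k`-tuples of different elements, `k ≥ 3`,
`m ≥ 120 ^ 3`. (3) For every finite group `X` with a subgroup `Y` with trivial normal core and
`m ≥ [X : Y]`, `m ≥ 120 ^ 3`, Malle's conjecture over `K` for `C₂ ≀ (X × S_m)`, acting on
`X/Y × S_m × {0, 1}`, is equivalent to the realizability of `X` over `K`. -/
theorem Pool.Agent.Results.MP_af4c59_nt.Transpositions.result :
    (∀ (n : ℕ) (G : Subgroup (Equiv.Perm (Fin n))) (B C : Setoid (Fin n)), 1 ≤ n → Cond G B C →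
      ∀ (K : Type) [Field K] [NumberField K],
        (Malle K n G ↔ Realizable K G) ∧ (LowerBound K n G ↔ Realizable K G)) ∧
    (∀ m k : ℕ, 120 ^ 3 ≤ m → 3 ≤ k → k ≤ m →
      ∀ (n : ℕ) (G : Subgroup (Equiv.Perm (Fin n))),
      IsWreath (fun (σ : Equiv.Perm (Fin m)) (x : Fin k ↪ Fin m) => x.trans σ.toEmbedding) G →
      ∀ (K : Type) [Field K] [NumberField K], Malle K n G) ∧
    (∀ (X : Type) [Group X] [Finite X] (Y : Subgroup X) (m : ℕ), Y.normalCore = ⊥ →
      120 ^ 3 ≤ m → Y.index ≤ m → ∀ (n : ℕ) (G : Subgroup (Equiv.Perm (Fin n))),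
      IsWreath (fun (h : X × Equiv.Perm (Fin m)) (x : (X ⧸ Y) × Equiv.Perm (Fin m)) =>
        (h.1 • x.1, h.2 * x.2)) G →
      ∀ (K : Type) [Field K] [NumberField K],
        (Malle K n G ↔ Realizable K X) ∧ (LowerBound K n G ↔ Realizable K X)) := by
  refine ⟨?_, ?_, ?_⟩
  · rintro n G B C hn ⟨h1, h2, h3, h4, h5, h6, h7, h8⟩ K _ _
    obtain ⟨H, i1, i2, W, U, hG, hWU, hU, hnW, hUC, f, hf⟩ :=
      Pool.Agent.Q17.ML2.bl n G B C hn h1 h3 h5 h6 h4 h2 h8
    have hc : 8 * U.index * (U.index + 1) ≤ W.index := by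
      rw [hUC]
      have e : 16 * Nat.card (Quotient C) * (Nat.card (Quotient C) + 1) =
        2 * (8 * Nat.card (Quotient C) * (Nat.card (Quotient C) + 1)) := by ring
      omega
    have hW := Pool.Agent.Q17.ML2.core_bot hWU hU
    have a1 : Realizable K G → Malle K n G := fun h =>
      of_real K hWU hU hc hG (Pool.Agent.Q24.ML.Real.of_surj f hf h)
    have a2 : Malle K n G → LowerBound K n G := fun h => h.2.1
    have a3 : LowerBound K n G → Realizable K G := fun h => (of_lower K hW hG h).2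
    exact ⟨⟨fun h => a3 (a2 h), a1⟩, ⟨a3, fun h => a2 (a1 h)⟩⟩
  · intro m k hm hk hkm n G hG K _ _
    obtain ⟨W, U, hWU, hU, hc, hG'⟩ := Pool.Agent.Q17.ML2.tuples Pool.Agent.Q17.ML2.ex m k
      (le_trans (by norm_num) hm) hk hkm G hG
    exact of_real K hWU hU hc hG' (Pool.Agent.Q17.ML2.real_perm K m hm)
  · intro X _ _ Y m hY hm hYm n G hG K _ _
    obtain ⟨W, U, hWU, hU, hc, hG'⟩ := Pool.Agent.Q17.ML2.prods Pool.Agent.Q17.ML2.pr X Y m hY
      (le_trans (by norm_num) hm) hYm G hG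
    have hW := Pool.Agent.Q17.ML2.core_bot hWU hU
    have hr := Pool.Agent.Q24.ML.real_iff_prod K (X := X) m hm
    have a1 : Realizable K X → Malle K n G := fun h => of_real K hWU hU hc hG' (hr.2 h)
    have a2 : Malle K n G → LowerBound K n G := fun h => h.2.1
    have a3 : LowerBound K n G → Realizable K X := fun h => hr.1 (of_lower K hW hG' h).1
    exact ⟨⟨fun h => a3 (a2 h), a1⟩, ⟨a3, fun h => a2 (a1 h)⟩⟩
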